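import Mathlib

/-!
# Local supporting hyperplanes and complex convexity: a counterexample

For every `n ≥ 2` we construct a bounded domain `D` in `ℂⁿ` that is not `ℂ`-convex although
`Γ_z(D)` is nonempty and connected for every boundary point `z`.

The domain is a Hartogs domain over an infinite square spiral of open rectangles `R j`
shrinking to `0`: over `R j` the fibre is the ball `‖w‖ < 10 - psi j z`, where `psi j` is convex.
Neighbouring cells overlap and there the two radii agree, so that the domain is locally convex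
at each boundary point over the spiral or at the outer walls; at the inner walls, where two
consecutive turns of the spiral touch, the only local supporting hyperplane is the vertical one,
unless the smaller fibre is hidden; over the centre `0` of the spiral the local supporting
hyperplanes form a union of projective lines through the vertical one.
-/

open Set Filter Topology
open scoped LinearAlgebra.Projectivization

namespace Pool.Agent.Results.MP_e79ea5_an.SpiralCounterexample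

noncomputable section

/-- The complex hyperplane through `z` with normal vector `a`. -/
def hyperplane {n : ℕ} (a z : Fin n → ℂ) : Set (Fin n → ℂ) :=
  {w | ∑ i, a i * w i = ∑ i, a i * z i}

/-- The complex line through `p` with direction `v`. -/
def cline {n : ℕ} (p v : Fin n → ℂ) : Set (Fin n → ℂ) := {x | ∃ t : ℂ, x = p + t • v}

/-- `D` is `ℂ`-convex: its intersection with each complex line is empty or connected and
simply connected. -/
def CConvex {n : ℕ} (D : Set (Fin n → ℂ)) : Prop :=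
  ∀ p v : Fin n → ℂ, v ≠ 0 → D ∩ cline p v = ∅ ∨
    (IsConnected (D ∩ cline p v) ∧ SimplyConnectedSpace ↥(D ∩ cline p v))

/-- The quotient topology on complex projective space. -/
@[instance_reducible]
def projTopology (n : ℕ) : TopologicalSpace (ℙ ℂ (Fin n → ℂ)) :=
  TopologicalSpace.coinduced
    (Projectivization.mk' ℂ : {v : Fin n → ℂ // v ≠ 0} → ℙ ℂ (Fin n → ℂ)) inferInstance

/-- The set of normal directions of the hyperplanes through `z` that miss `D` near `z`. -/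
def Gamma {n : ℕ} (D : Set (Fin n → ℂ)) (z : Fin n → ℂ) : Set (ℙ ℂ (Fin n → ℂ)) :=
  {q | ∃ U ∈ 𝓝 z, hyperplane q.rep z ∩ U ∩ D = ∅}

/-- local support condition for a normal vector -/
def LS {n : ℕ} (D : Set (Fin n → ℂ)) (z a : Fin n → ℂ) : Prop :=
  ∀ᶠ x in 𝓝 z, x ∈ D → ∑ i, a i * x i ≠ ∑ i, a i * z i

lemma mem_Gamma_iff {n : ℕ} {D : Set (Fin n → ℂ)} {z : Fin n → ℂ} (q : ℙ ℂ (Fin n → ℂ)) :
    q ∈ Gamma D z ↔ LS D z q.rep := by
  unfold Gamma LS
  constructor
  · rintro ⟨U, hU, h⟩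
    filter_upwards [hU] with x hx hD he
    have : x ∈ hyperplane q.rep z ∩ U ∩ D := ⟨⟨he, hx⟩, hD⟩
    rw [h] at this; exact this
  · intro h
    refine ⟨_, h, ?_⟩
    ext x; constructor
    · rintro ⟨⟨h1, h2⟩, h3⟩; exact h2 h3 h1
    · intro h; exact absurd h (Set.notMem_empty x)

lemma LS_smul {n : ℕ} {D : Set (Fin n → ℂ)} {z a : Fin n → ℂ} {c : ℂ} (hc : c ≠ 0)
    (h : LS D z a) : LS D z (c • a) := by
  unfold LS at *
  filter_upwards [h] with x hx hD he
  apply hx hD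
  simp only [Pi.smul_apply, smul_eq_mul, mul_assoc, ← Finset.mul_sum] at he
  exact mul_left_cancel₀ hc he

lemma gamma_conn {n : ℕ} {D : Set (Fin n → ℂ)} {z : Fin n → ℂ} (A : Set (Fin n → ℂ))
    (hA : IsConnected A)
    (h0 : ∀ a ∈ A, a ≠ 0) (hLS : ∀ a ∈ A, LS D z a)
    (h1 : ∀ a, a ≠ 0 → LS D z a → ∃ c : ℂ, c ≠ 0 ∧ c • a ∈ A) :
    @IsConnected _ (projTopology n) (Gamma D z) := by
  let _ := projTopology n
  have hcont : Continuous
      (Projectivization.mk' ℂ : {v : Fin n → ℂ // v ≠ 0} → ℙ ℂ (Fin n → ℂ)) :=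
    continuous_coinduced_rng
  have heq : Gamma D z = Set.range (fun a : A =>
      Projectivization.mk' ℂ (⟨a.1, h0 a a.2⟩ : {v : Fin n → ℂ // v ≠ 0})) := by
    ext q
    constructor
    · intro hq
      rw [mem_Gamma_iff] at hq
      obtain ⟨c, hc, hcA⟩ := h1 q.rep q.rep_nonzero hq
      refine ⟨⟨c • q.rep, hcA⟩, ?_⟩
      show Projectivization.mk ℂ (c • q.rep) _ = q
      conv_rhs => rw [← Projectivization.mk_rep q]
      rw [Projectivization.mk_eq_mk_iff']
      exact ⟨c, rfl⟩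
    · rintro ⟨⟨a, ha⟩, rfl⟩
      rw [mem_Gamma_iff]
      show LS D z (Projectivization.mk ℂ a (h0 a ha)).rep
      obtain ⟨c, hc⟩ := Projectivization.exists_smul_eq_mk_rep ℂ a (h0 a ha)
      rw [← hc]
      exact LS_smul (c := (c : ℂ)) c.ne_zero (hLS a ha)
  rw [heq]
  have : ConnectedSpace A := isConnected_iff_connectedSpace.mp hA
  refine isConnected_range (hcont.comp ?_)
  exact Continuous.subtype_mk continuous_subtype_val _

/-- Convex case. -/
lemma gamma_conn_convex {n : ℕ} {D C : Set (Fin n → ℂ)} {p : Fin n → ℂ}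
    (hCo : IsOpen C) (hCc : Convex ℝ C) (hp : p ∈ closure D) (hpD : p ∉ D)
    (hCD : C ⊆ D) (hloc : ∀ᶠ x in 𝓝 p, x ∈ D → x ∈ C) :
    @IsConnected _ (projTopology n) (Gamma D p) := by
  have hpC : p ∈ closure C := by
    rw [mem_closure_iff_frequently] at hp ⊢
    exact (hp.and_eventually hloc).mono fun x hx => hx.2 hx.1
  have hpC' : p ∉ C := fun h => hpD (hCD h)
  obtain ⟨x0, hx0⟩ : C.Nonempty := by
    rw [← closure_nonempty_iff]; exact ⟨p, hpC⟩
  -- global support from local support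
  have key : ∀ a : Fin n → ℂ, LS D p a → ∀ x ∈ C, ∑ i, a i * (x i - p i) ≠ 0 := by
    intro a ha x hx he
    have hseg : ∀ t : ℝ, t ∈ Ioo (0:ℝ) 1 → p + t • (x - p) ∈ C := by
      intro t ht
      have h1 := hCc.openSegment_closure_interior_subset_interior hpC
        (by rw [hCo.interior_eq]; exact hx)
      rw [hCo.interior_eq] at h1
      apply h1
      rw [openSegment_eq_image']
      exact ⟨t, ht, rfl⟩
    have htend : Tendsto (fun t : ℝ => p + t • (x - p)) (𝓝[>] 0) (𝓝 p) := by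
      have : Tendsto (fun t : ℝ => p + t • (x - p)) (𝓝 0) (𝓝 (p + (0:ℝ) • (x - p))) :=
        (Continuous.tendsto (by fun_prop) 0)
      rw [zero_smul, add_zero] at this
      exact this.mono_left nhdsWithin_le_nhds
    have h2 := htend.eventually ha
    have h3 : ∀ᶠ t : ℝ in 𝓝[>] 0, t ∈ Ioo (0:ℝ) 1 := Ioo_mem_nhdsGT one_pos
    obtain ⟨t, ht1, ht2⟩ := (h2.and h3).exists
    apply ht1 (hCD (hseg t ht2))
    have : ∑ i, a i * (p + t • (x - p)) i = ∑ i, a i * p i + t * ∑ i, a i * (x i - p i) := by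
      rw [Finset.mul_sum, ← Finset.sum_add_distrib]
      refine Finset.sum_congr rfl fun i _ => ?_
      simp only [Pi.add_apply, Pi.smul_apply, Pi.sub_apply, Complex.real_smul]
      ring
    rw [this, he, mul_zero, add_zero]
  have hbi : ∀ (c : ℂ) (a x : Fin n → ℂ),
      ∑ i, (c • a) i * (x i - p i) = c * ∑ i, a i * (x i - p i) := by
    intro c a x
    rw [Finset.mul_sum]
    refine Finset.sum_congr rfl fun i _ => ?_
    simp only [Pi.smul_apply, smul_eq_mul]; ring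
  -- Hahn Banach
  have sep : ∀ a : Fin n → ℂ, a ≠ 0 → (∀ x ∈ C, ∑ i, a i * (x i - p i) ≠ 0) →
      ∃ c : ℂ, c ≠ 0 ∧ ∀ x ∈ C, (∑ i, (c • a) i * (x i - p i)).re < 0 := by
    intro a ha hne
    let L : (Fin n → ℂ) →ₗ[ℂ] ℂ :=
      { toFun := fun x => ∑ i, a i * x i
        map_add' := fun x y => by
          simp only [Pi.add_apply, mul_add, Finset.sum_add_distrib]
        map_smul' := fun c x => by
          simp only [Pi.smul_apply, smul_eq_mul, RingHom.id_apply, Finset.mul_sum]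
          refine Finset.sum_congr rfl fun i _ => ?_
          ring }
    have hLx : ∀ x : Fin n → ℂ, L x = ∑ i, a i * x i := fun x => rfl
    have hLsurj : Function.Surjective L := by
      obtain ⟨i, hi⟩ := Function.ne_iff.mp ha
      intro y
      refine ⟨Pi.single i (y / a i), ?_⟩
      rw [hLx]
      rw [Finset.sum_eq_single i]
      · rw [Pi.single_eq_same]
        have hi' : a i ≠ 0 := hi
        field_simp
      · intro j _ hj
        rw [Pi.single_eq_of_ne hj, mul_zero]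
      · intro h; exact absurd (Finset.mem_univ i) h
    have hopen : IsOpenMap L := LinearMap.isOpenMap_of_finiteDimensional L hLsurj
    have hS1 : IsOpen (L '' C) := hopen C hCo
    have hS2 : Convex ℝ (L '' C) := by
      have := hCc.linear_image (L.restrictScalars ℝ)
      exact this
    have hS3 : L p ∉ L '' C := by
      rintro ⟨x, hx, hxe⟩
      apply hne x hx
      rw [hLx, hLx] at hxe
      simp only [mul_sub, Finset.sum_sub_distrib]
      rw [hxe, sub_self]
    obtain ⟨f, hf⟩ := RCLike.geometric_hahn_banach_open_point (𝕜 := ℂ) hS2 hS1 hS3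
    have hfm : ∀ y : ℂ, f y = f 1 * y := by
      intro y
      have : f (y • (1:ℂ)) = y • f 1 := f.map_smul y 1
      rw [smul_eq_mul, mul_one, smul_eq_mul] at this
      rw [this, mul_comm]
    have hre : ∀ x ∈ C, (∑ i, (f 1 • a) i * (x i - p i)).re < 0 := by
      intro x hx
      have h1 := hf (L x) ⟨x, hx, rfl⟩
      rw [hfm, hfm (L p), hLx, hLx] at h1
      rw [hbi]
      simp only [mul_sub, Finset.sum_sub_distrib, Complex.sub_re]
      have h1' : (f 1 * ∑ i, a i * x i).re < (f 1 * ∑ i, a i * p i).re := h1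
      linarith
    refine ⟨f 1, ?_, hre⟩
    intro h0
    have := hre x0 hx0
    rw [hbi, h0, zero_mul] at this
    simp at this
  -- existence of one
  have hex : ∃ a : Fin n → ℂ, ∀ x ∈ C, (∑ i, a i * (x i - p i)).re < 0 := by
    obtain ⟨f, hf⟩ := RCLike.geometric_hahn_banach_open_point (𝕜 := ℂ) hCc hCo hpC'
    refine ⟨fun i => f (Pi.single i 1), fun x hx => ?_⟩
    have hfx : ∀ y : Fin n → ℂ, f y = ∑ i, f (Pi.single i 1) * y i := by
      intro y
      conv_lhs => rw [pi_eq_sum_univ' y]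
      rw [map_sum]
      refine Finset.sum_congr rfl fun i _ => ?_
      rw [map_smul, smul_eq_mul, mul_comm]
    have h1 := hf x hx
    have h1' : (f x).re < (f p).re := h1
    rw [hfx x, hfx p] at h1'
    simp only [mul_sub, Finset.sum_sub_distrib, Complex.sub_re]
    linarith
  refine gamma_conn {a | ∀ x ∈ C, (∑ i, a i * (x i - p i)).re < 0} ?_ ?_ ?_ ?_
  · refine (Convex.isPreconnected ?_) |> fun h => ⟨hex, h⟩
    intro a ha b hb s t hs ht hst
    intro x hx
    have h1 := ha x hx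
    have h2 := hb x hx
    have : ∑ i, (s • a + t • b) i * (x i - p i)
        = s * ∑ i, a i * (x i - p i) + t * ∑ i, b i * (x i - p i) := by
      rw [Finset.mul_sum, Finset.mul_sum, ← Finset.sum_add_distrib]
      refine Finset.sum_congr rfl fun i _ => ?_
      simp only [Pi.add_apply, Pi.smul_apply, Complex.real_smul]
      ring
    rw [this, Complex.add_re, Complex.re_ofReal_mul, Complex.re_ofReal_mul]
    rcases hs.eq_or_lt with h | h
    · subst h
      have : t = 1 := by linarith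
      subst this
      simpa using h2
    · have h3 : s * (∑ i, a i * (x i - p i)).re < 0 := mul_neg_of_pos_of_neg h h1
      have h4 : t * (∑ i, b i * (x i - p i)).re ≤ 0 := mul_nonpos_of_nonneg_of_nonpos ht h2.le
      linarith
  · intro a ha h0
    subst h0
    have := ha x0 hx0
    simp at this
  · intro a ha
    unfold LS
    filter_upwards [hloc] with x hx hD he
    have h1 := ha x (hx hD)
    simp only [mul_sub, Finset.sum_sub_distrib] at h1
    rw [he, sub_self] at h1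
    simp at h1
  · intro a ha hLSa
    exact sep a ha (key a hLSa)

/-- the point (z,w) -/
def pt {m : ℕ} (z : ℂ) (w : Fin (m+1) → ℂ) : Fin (m+2) → ℂ := Fin.cons z w

/-- the tail of a vector -/
def tl {m : ℕ} (x : Fin (m+2) → ℂ) : Fin (m+1) → ℂ := fun j => x j.succ

lemma pt_zero {m : ℕ} (z : ℂ) (w : Fin (m+1) → ℂ) : pt z w 0 = z := rfl
lemma pt_succ {m : ℕ} (z : ℂ) (w : Fin (m+1) → ℂ) (j : Fin (m+1)) : pt z w j.succ = w j := rfl
lemma tl_pt {m : ℕ} (z : ℂ) (w : Fin (m+1) → ℂ) : tl (pt z w) = w := rfl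
lemma pt_tl {m : ℕ} (x : Fin (m+2) → ℂ) : pt (x 0) (tl x) = x := by
  funext j
  refine Fin.cases ?_ (fun j => ?_) j
  · rfl
  · rfl

/-- bilinear pairing -/
def pr {k : ℕ} (a x : Fin k → ℂ) : ℂ := ∑ i, a i * x i

lemma pr_pt {m : ℕ} (a : Fin (m+2) → ℂ) (z : ℂ) (w : Fin (m+1) → ℂ) :
    pr a (pt z w) = a 0 * z + pr (tl a) w := by
  unfold pr
  rw [Fin.sum_univ_succ]
  rfl

lemma pr_split {m : ℕ} (a x : Fin (m+2) → ℂ) :
    pr a x = a 0 * x 0 + pr (tl a) (tl x) := by
  rw [← pr_pt, pt_tl]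

lemma pr_sub {k : ℕ} (a x y : Fin k → ℂ) : pr a (x - y) = pr a x - pr a y := by
  unfold pr
  rw [← Finset.sum_sub_distrib]
  refine Finset.sum_congr rfl fun i _ => ?_
  rw [Pi.sub_apply, mul_sub]

lemma pr_add {k : ℕ} (a x y : Fin k → ℂ) : pr a (x + y) = pr a x + pr a y := by
  unfold pr
  rw [← Finset.sum_add_distrib]
  refine Finset.sum_congr rfl fun i _ => ?_
  rw [Pi.add_apply, mul_add]

lemma pr_smul_right {k : ℕ} (t : ℝ) (a x : Fin k → ℂ) : pr a (t • x) = t * pr a x := by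
  unfold pr
  rw [Finset.mul_sum]
  refine Finset.sum_congr rfl fun i _ => ?_
  rw [Pi.smul_apply, Complex.real_smul]; ring

lemma pr_smul_left {k : ℕ} (t : ℝ) (a x : Fin k → ℂ) : pr (t • a) x = t * pr a x := by
  unfold pr
  rw [Finset.mul_sum]
  refine Finset.sum_congr rfl fun i _ => ?_
  rw [Pi.smul_apply, Complex.real_smul]; ring

lemma pr_zero_left {k : ℕ} (x : Fin k → ℂ) : pr 0 x = 0 := by
  unfold pr
  refine Finset.sum_eq_zero fun i _ => ?_
  rw [Pi.zero_apply, zero_mul]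

/-- coordinate vector -/
def sg {k : ℕ} (i : Fin k) (s : ℂ) : Fin k → ℂ := Pi.single i s

lemma norm_sg {k : ℕ} (i : Fin k) (s : ℂ) : ‖sg i s‖ = ‖s‖ := by
  unfold sg
  exact Pi.norm_single (G := fun _ : Fin k => ℂ) s

lemma pr_sg {k : ℕ} (b : Fin k → ℂ) (i : Fin k) (s : ℂ) : pr b (sg i s) = b i * s := by
  unfold pr sg
  rw [Finset.sum_eq_single i]
  · rw [Pi.single_eq_same]
  · intro j _ hj
    rw [Pi.single_eq_of_ne hj, mul_zero]
  · intro h; exact absurd (Finset.mem_univ i) h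

/-- the normal vector of the vertical hyperplane -/
def e0 (m : ℕ) : Fin (m+2) → ℂ := pt 1 0

lemma e0_zero (m : ℕ) : e0 m 0 = 1 := rfl
lemma tl_e0 (m : ℕ) : tl (e0 m) = 0 := rfl
lemma pr_e0 {m : ℕ} (x : Fin (m+2) → ℂ) : pr (e0 m) x = x 0 := by
  rw [pr_split, e0_zero, tl_e0, pr_zero_left, one_mul, add_zero]

lemma e0_ne (m : ℕ) : e0 m ≠ 0 := by
  intro h
  have := congrFun h 0
  rw [e0_zero] at this
  exact one_ne_zero this

lemma LS_pr {n : ℕ} {D : Set (Fin n → ℂ)} {z a : Fin n → ℂ} :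
    LS D z a ↔ ∀ᶠ x in 𝓝 z, x ∈ D → pr a x ≠ pr a z := Iff.rfl

lemma dist_pt_lt {m : ℕ} {z z' : ℂ} {w w' : Fin (m+1) → ℂ} {ε : ℝ}
    (h1 : ‖z - z'‖ < ε) (h2 : ‖w - w'‖ < ε) : dist (pt z w) (pt z' w') < ε := by
  have hε : 0 < ε := lt_of_le_of_lt (norm_nonneg _) h1
  rw [dist_pi_lt_iff hε]
  intro j
  refine Fin.cases ?_ (fun j => ?_) j
  · rw [pt_zero, pt_zero, dist_eq_norm]; exact h1
  · rw [pt_succ, pt_succ, dist_eq_norm]
    exact lt_of_le_of_lt (norm_le_pi_norm (w - w') j) h2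

lemma tail_zero_or {m : ℕ} (a : Fin (m+2) → ℂ) (h : a ≠ 0) (hb : tl a = 0) :
    a 0 ≠ 0 ∧ (a 0)⁻¹ • a = e0 m := by
  have ha0 : a 0 ≠ 0 := by
    intro h0
    apply h
    rw [← pt_tl a, hb, h0]
    funext j
    refine Fin.cases ?_ (fun j => ?_) j
    · rfl
    · rfl
  refine ⟨ha0, ?_⟩
  rw [← pt_tl ((a 0)⁻¹ • a)]
  have e1 : ((a 0)⁻¹ • a) 0 = 1 := by
    rw [Pi.smul_apply, smul_eq_mul, inv_mul_cancel₀ ha0]
  have e2 : tl ((a 0)⁻¹ • a) = 0 := by
    funext j
    show (a 0)⁻¹ • a j.succ = 0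
    have : a j.succ = 0 := congrFun hb j
    rw [this, smul_zero]
  rw [e1, e2]; rfl

/-- Vertical lemma. -/
lemma gamma_conn_vertical {m : ℕ} {D : Set (Fin (m+2) → ℂ)} (z₀ : ℂ) (w₀ : Fin (m+1) → ℂ)
    (h1 : ∀ x ∈ D, x 0 ≠ z₀) (δ : ℝ) (hδ : 0 < δ)
    (h2 : ∀ ε > 0, ∃ z : ℂ, ‖z - z₀‖ < ε ∧ ∀ w : Fin (m+1) → ℂ, ‖w‖ < ‖w₀‖ + δ →
      pt z w ∈ D) :
    @IsConnected _ (projTopology (m+2)) (Gamma D (pt z₀ w₀)) := by
  refine gamma_conn {e0 m} isConnected_singleton ?_ ?_ ?_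
  · intro a ha
    rw [mem_singleton_iff] at ha
    subst ha
    exact e0_ne m
  · intro a ha
    rw [mem_singleton_iff] at ha
    subst ha
    rw [LS_pr]
    refine Filter.Eventually.of_forall fun x hx => ?_
    rw [pr_e0, pr_e0]
    exact h1 x hx
  · intro a ha hLS
    have hb : tl a = 0 := by
      by_contra hne
      obtain ⟨i, hi'⟩ := Function.ne_iff.mp hne
      have hi : tl a i ≠ 0 := hi'
      have hai : 0 < ‖tl a i‖ := norm_pos_iff.mpr hi
      obtain ⟨ε, hε, hball⟩ := Metric.eventually_nhds_iff.mp hLS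
      obtain ⟨K, hK⟩ : ∃ K : ℝ, K = ‖a 0‖ / ‖tl a i‖ := ⟨_, rfl⟩
      have hK0 : 0 ≤ K := by rw [hK]; positivity
      obtain ⟨μ, hμ⟩ : ∃ μ : ℝ, μ = min ε δ := ⟨_, rfl⟩
      have hμ0 : 0 < μ := by rw [hμ]; exact lt_min hε hδ
      have hμε : μ ≤ ε := by rw [hμ]; exact min_le_left _ _
      have hμδ : μ ≤ δ := by rw [hμ]; exact min_le_right _ _
      have hpos : 0 < min μ (μ / (K + 1)) := lt_min hμ0 (by positivity)
      obtain ⟨z, hz, hzD⟩ := h2 _ hpos
      have hz1 : ‖z - z₀‖ < μ := lt_of_lt_of_le hz (min_le_left _ _)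
      have hz2 : ‖z - z₀‖ < μ / (K + 1) := lt_of_lt_of_le hz (min_le_right _ _)
      obtain ⟨s, hs⟩ : ∃ s : ℂ, s = -(a 0 * (z - z₀)) / tl a i := ⟨_, rfl⟩
      have hsn : ‖s‖ < μ := by
        have e1 : ‖s‖ = K * ‖z - z₀‖ := by
          rw [hs, norm_div, norm_neg, norm_mul, hK, mul_div_right_comm]
        rw [e1]
        rw [lt_div_iff₀ (by positivity)] at hz2
        have := norm_nonneg (z - z₀)
        linarith
      have hmem : pt z (w₀ + sg i s) ∈ D := by
        apply hzD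
        calc ‖w₀ + sg i s‖ ≤ ‖w₀‖ + ‖sg i s‖ := norm_add_le _ _
          _ = ‖w₀‖ + ‖s‖ := by rw [norm_sg]
          _ < ‖w₀‖ + δ := by linarith
      have hdist : dist (pt z (w₀ + sg i s)) (pt z₀ w₀) < ε := by
        apply dist_pt_lt (lt_of_lt_of_le hz1 hμε)
        rw [add_sub_cancel_left, norm_sg]
        exact lt_of_lt_of_le hsn hμε
      apply hball hdist hmem
      show pr a (pt z (w₀ + sg i s)) = pr a (pt z₀ w₀)
      rw [pr_pt, pr_pt, pr_add, pr_sg]
      have : tl a i * s = -(a 0 * (z - z₀)) := by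
        rw [hs, mul_div_cancel₀ _ hi]
      rw [this]; ring
    obtain ⟨ha0, hae⟩ := tail_zero_or a ha hb
    exact ⟨(a 0)⁻¹, inv_ne_zero ha0, hae⟩

lemma tl_add {m : ℕ} (x y : Fin (m+2) → ℂ) : tl (x + y) = tl x + tl y := rfl
lemma tl_smul {m : ℕ} (t : ℝ) (x : Fin (m+2) → ℂ) : tl (t • x) = t • tl x := rfl

/-- Centre lemma. -/
lemma gamma_conn_centre {m : ℕ} {D : Set (Fin (m+2) → ℂ)} (w₀ : Fin (m+1) → ℂ)
    (h1 : ∀ x ∈ D, x 0 ≠ 0)
    (h2 : ∀ K : ℝ, 0 < K → ∃ ε > 0, ∀ x ∈ D, ‖x 0‖ < ε → K * ‖x 0‖ < ‖w₀‖ - ‖tl x‖)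
    (h3 : ∀ ρ < ‖w₀‖, ∀ ε > 0, ∃ z : ℂ, ‖z‖ < ε ∧ ∀ w : Fin (m+1) → ℂ, ‖w‖ < ρ →
      pt z w ∈ D) :
    @IsConnected _ (projTopology (m+2)) (Gamma D (pt 0 w₀)) := by
  obtain ⟨A, hA⟩ : ∃ A : Set (Fin (m+2) → ℂ), A = {a | a = e0 m ∨ ((∃ i, tl a i ≠ 0) ∧
    ∀ w : Fin (m+1) → ℂ, ‖w‖ < ‖w₀‖ → pr (tl a) (w - w₀) ≠ 0)} := ⟨_, rfl⟩
  have hAm : ∀ a, a ∈ A ↔ (a = e0 m ∨ ((∃ i, tl a i ≠ 0) ∧
    ∀ w : Fin (m+1) → ℂ, ‖w‖ < ‖w₀‖ → pr (tl a) (w - w₀) ≠ 0)) := by
    intro a; rw [hA]; rfl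
  have he0 : e0 m ∈ A := (hAm _).mpr (Or.inl rfl)
  refine gamma_conn A ⟨⟨_, he0⟩, ?_⟩ ?_ ?_ ?_
  · refine isPreconnected_of_forall (e0 m) ?_
    intro a ha
    refine ⟨segment ℝ (e0 m) a, ?_, left_mem_segment _ _ _, right_mem_segment _ _ _,
      (convex_segment _ _).isPreconnected⟩
    rcases (hAm a).mp ha with rfl | ⟨⟨i, hi⟩, ha⟩
    · rw [segment_same]; rintro x rfl; exact he0
    · intro x hx
      rw [segment_eq_image] at hx
      obtain ⟨t, ht, hx⟩ := hx
      rw [← hx]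
      show (1 - t) • e0 m + t • a ∈ A
      rcases ht.1.eq_or_lt with h | h
      · subst h
        rw [sub_zero, one_smul, zero_smul, add_zero]
        exact he0
      · rw [hAm]
        right
        have htc : (t : ℂ) ≠ 0 := by exact_mod_cast h.ne'
        have hc : tl ((1 - t) • e0 m + t • a) = t • tl a := by
          rw [tl_add, tl_smul, tl_smul, tl_e0, smul_zero, zero_add]
        rw [hc]
        refine ⟨⟨i, ?_⟩, ?_⟩
        · rw [Pi.smul_apply, Complex.real_smul]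
          exact mul_ne_zero htc hi
        · intro w hw
          rw [pr_smul_left]
          exact mul_ne_zero htc (ha w hw)
  · intro a ha
    rcases (hAm a).mp ha with rfl | ⟨⟨i, hi⟩, -⟩
    · exact e0_ne m
    · intro h
      apply hi
      rw [h]; rfl
  · intro a ha
    rcases (hAm a).mp ha with rfl | ⟨⟨i, hi⟩, ha⟩
    · rw [LS_pr]
      refine Filter.Eventually.of_forall fun x hx => ?_
      rw [pr_e0, pr_e0]
      exact h1 x hx
    · have hai : 0 < ‖tl a i‖ := norm_pos_iff.mpr hi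
      -- lower bound
      have hlow : ∀ w : Fin (m+1) → ℂ, ‖w‖ < ‖w₀‖ →
          ‖tl a i‖ * (‖w₀‖ - ‖w‖) ≤ ‖pr (tl a) (w - w₀)‖ := by
        intro w hw
        by_contra hcon
        push Not at hcon
        obtain ⟨S, hS⟩ : ∃ S : ℂ, S = pr (tl a) (w - w₀) := ⟨_, rfl⟩
        obtain ⟨s, hs⟩ : ∃ s : ℂ, s = -S / tl a i := ⟨_, rfl⟩
        rw [← hS] at hcon
        have hsn : ‖s‖ < ‖w₀‖ - ‖w‖ := by
          rw [hs, norm_div, norm_neg, div_lt_iff₀ hai, mul_comm]
          exact hcon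
        apply ha (w + sg i s)
        · calc ‖w + sg i s‖ ≤ ‖w‖ + ‖sg i s‖ := norm_add_le _ _
            _ = ‖w‖ + ‖s‖ := by rw [norm_sg]
            _ < ‖w₀‖ := by linarith
        · have e1 : tl a i * s = -S := by
            rw [hs, mul_div_cancel₀ _ hi]
          have e2 : w + sg i s - w₀ = (w - w₀) + sg i s := by abel
          rw [e2, pr_add, pr_sg, e1, ← hS]
          ring
      obtain ⟨K, hK⟩ : ∃ K : ℝ, K = ‖a 0‖ / ‖tl a i‖ := ⟨_, rfl⟩
      have hK0 : 0 ≤ K := by rw [hK]; positivity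
      obtain ⟨ε, hε, h2'⟩ := h2 (K + 1) (by positivity)
      have hev : ∀ᶠ x : Fin (m+2) → ℂ in 𝓝 (pt 0 w₀), ‖x 0‖ < ε := by
        have hc : Continuous fun x : Fin (m+2) → ℂ => ‖x 0‖ := by fun_prop
        have := hc.tendsto (pt 0 w₀ : Fin (m+2) → ℂ)
        simp only [pt_zero, norm_zero] at this
        exact this.eventually (gt_mem_nhds hε)
      rw [LS_pr]
      filter_upwards [hev] with x hx hD he
      have hx1 := h2' x hD hx
      have hx0 : 0 < ‖x 0‖ := norm_pos_iff.mpr (h1 x hD)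
      have hKx : 0 < (K + 1) * ‖x 0‖ := by positivity
      have hx2 : ‖tl x‖ < ‖w₀‖ := by linarith
      have hx3 := hlow (tl x) hx2
      rw [pr_split, pr_pt, mul_zero, zero_add] at he
      have e2 : pr (tl a) (tl x - w₀) = - (a 0 * x 0) := by
        rw [pr_sub, ← he]; ring
      rw [e2, norm_neg, norm_mul] at hx3
      have e3 : ‖a 0‖ = K * ‖tl a i‖ := by rw [hK]; field_simp
      have e4 : ‖tl a i‖ * ((K + 1) * ‖x 0‖) <
          ‖tl a i‖ * (‖w₀‖ - ‖tl x‖) := mul_lt_mul_of_pos_left hx1 hai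
      have e6 : 0 < ‖tl a i‖ * ‖x 0‖ := by positivity
      rw [e3] at hx3
      nlinarith
  · intro a ha hLS
    by_cases hb : ∃ i : Fin (m+1), tl a i ≠ 0
    · refine ⟨1, one_ne_zero, ?_⟩
      rw [one_smul, hAm]
      right
      refine ⟨hb, ?_⟩
      intro w₁ hw₁ hzero
      obtain ⟨i, hi⟩ := hb
      have hai : 0 < ‖tl a i‖ := norm_pos_iff.mpr hi
      obtain ⟨ε, hε, hball⟩ := Metric.eventually_nhds_iff.mp hLS
      -- choose t
      obtain ⟨M, hM⟩ : ∃ M : ℝ, M = ‖w₁ - w₀‖ := ⟨_, rfl⟩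
      have hM0 : 0 ≤ M := by rw [hM]; exact norm_nonneg _
      obtain ⟨t, ht0, ht1, htM⟩ : ∃ t : ℝ, 0 < t ∧ t < 1 ∧ t * M < ε / 2 := by
        have hq : 0 < ε / 2 / (M + 1) := by positivity
        refine ⟨min (1/2) (ε / 2 / (M + 1)), lt_min (by norm_num) hq, ?_, ?_⟩
        · exact lt_of_le_of_lt (min_le_left _ _) (by norm_num)
        · have h5 : min (1/2) (ε / 2 / (M + 1)) ≤ ε / 2 / (M + 1) := min_le_right _ _
          have h6 : ε / 2 / (M + 1) * M < ε / 2 := by
            rw [div_mul_eq_mul_div, div_lt_iff₀ (by positivity)]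
            nlinarith
          have h7 : min (1/2) (ε / 2 / (M + 1)) * M ≤ ε / 2 / (M + 1) * M :=
            mul_le_mul_of_nonneg_right h5 hM0
          linarith
      obtain ⟨wt, hwt⟩ : ∃ wt : Fin (m+1) → ℂ, wt = w₀ + t • (w₁ - w₀) := ⟨_, rfl⟩
      obtain ⟨η, hη⟩ : ∃ η : ℝ, η = t * (‖w₀‖ - ‖w₁‖) := ⟨_, rfl⟩
      have hηpos : 0 < η := by rw [hη]; exact mul_pos ht0 (by linarith)
      have hwtn : ‖wt‖ ≤ ‖w₀‖ - η := by
        have : wt = (1 - t) • w₀ + t • w₁ := by
          rw [hwt, smul_sub, sub_smul, one_smul]; abel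
        rw [this]
        calc ‖(1 - t) • w₀ + t • w₁‖ ≤ ‖(1 - t) • w₀‖ + ‖t • w₁‖ := norm_add_le _ _
          _ = (1 - t) * ‖w₀‖ + t * ‖w₁‖ := by
            rw [norm_smul, norm_smul, Real.norm_of_nonneg (by linarith), Real.norm_of_nonneg ht0.le]
          _ = _ := by rw [hη]; ring
      have hwtz : pr (tl a) wt = pr (tl a) w₀ := by
        rw [hwt, pr_add, pr_smul_right, hzero, mul_zero, add_zero]
      obtain ⟨K, hK⟩ : ∃ K : ℝ, K = ‖a 0‖ / ‖tl a i‖ := ⟨_, rfl⟩
      have hK0 : 0 ≤ K := by rw [hK]; positivity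
      obtain ⟨μ, hμ⟩ : ∃ μ : ℝ, μ = min (ε/2) (η/2) := ⟨_, rfl⟩
      have hμ0 : 0 < μ := by rw [hμ]; exact lt_min (by linarith) (by linarith)
      have hμε : μ ≤ ε/2 := by rw [hμ]; exact min_le_left _ _
      have hμη : μ ≤ η/2 := by rw [hμ]; exact min_le_right _ _
      have hpos : 0 < min μ (μ / (K + 1)) := lt_min hμ0 (by positivity)
      obtain ⟨z, hz, hzD⟩ := h3 (‖w₀‖ - η / 2) (by linarith) _ hpos
      have hz1 : ‖z‖ < μ := lt_of_lt_of_le hz (min_le_left _ _)
      have hz2 : ‖z‖ < μ / (K + 1) := lt_of_lt_of_le hz (min_le_right _ _)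
      obtain ⟨s, hs⟩ : ∃ s : ℂ, s = -(a 0 * z) / tl a i := ⟨_, rfl⟩
      have hsn : ‖s‖ < μ := by
        have e1 : ‖s‖ = K * ‖z‖ := by
          rw [hs, norm_div, norm_neg, norm_mul, hK, mul_div_right_comm]
        rw [e1]
        rw [lt_div_iff₀ (by positivity)] at hz2
        have := norm_nonneg z
        linarith
      have hmem : pt z (wt + sg i s) ∈ D := by
        apply hzD
        calc ‖wt + sg i s‖ ≤ ‖wt‖ + ‖sg i s‖ := norm_add_le _ _
          _ = ‖wt‖ + ‖s‖ := by rw [norm_sg]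
          _ < ‖w₀‖ - η / 2 := by linarith
      have hdist : dist (pt z (wt + sg i s)) (pt 0 w₀) < ε := by
        apply dist_pt_lt
        · rw [sub_zero]; linarith
        · have e1 : wt + sg i s - w₀ = t • (w₁ - w₀) + sg i s := by
            rw [hwt]; abel
          rw [e1]
          calc ‖t • (w₁ - w₀) + sg i s‖ ≤ ‖t • (w₁ - w₀)‖ + ‖sg i s‖ := norm_add_le _ _
              _ = t * M + ‖s‖ := by
                rw [norm_smul, Real.norm_of_nonneg ht0.le, norm_sg, hM]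
              _ < ε := by linarith
      apply hball hdist hmem
      show pr a (pt z (wt + sg i s)) = pr a (pt 0 w₀)
      rw [pr_pt, pr_pt, pr_add, pr_sg, hwtz]
      have : tl a i * s = -(a 0 * z) := by
        rw [hs, mul_div_cancel₀ _ hi]
      rw [this]; ring
    · push Not at hb
      obtain ⟨ha0, hae⟩ := tail_zero_or a ha (funext hb)
      refine ⟨(a 0)⁻¹, inv_ne_zero ha0, ?_⟩
      rw [hae]; exact he0

/-- radii parameters -/
def b (k : ℕ) : ℝ := 1 / ((k : ℝ) + 1)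
/-- wall positions -/
def a (k : ℕ) : ℝ := b k - b (k + 1)

lemma a_eq (k : ℕ) : a k = 1 / (((k : ℝ) + 1) * ((k : ℝ) + 2)) := by
  unfold a b
  have h1 : (k : ℝ) + 1 ≠ 0 := by positivity
  have h2 : (k : ℝ) + 1 + 1 ≠ 0 := by positivity
  have h3 : (k : ℝ) + 2 ≠ 0 := by positivity
  push_cast
  field_simp
  ring

lemma b_pos (k : ℕ) : 0 < b k := by unfold b; positivity
lemma a_pos (k : ℕ) : 0 < a k := by rw [a_eq]; positivity
lemma a_def (k : ℕ) : a k = b k - b (k + 1) := rfl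

lemma b_le_one (k : ℕ) : b k ≤ 1 := by
  unfold b
  rw [div_le_one (by positivity)]
  have : (0:ℝ) ≤ k := Nat.cast_nonneg k
  linarith

lemma a_le_half (k : ℕ) : a k ≤ 1/2 := by
  rw [a_eq]
  apply one_div_le_one_div_of_le (by norm_num)
  have : (0:ℝ) ≤ k := Nat.cast_nonneg k
  nlinarith

lemma a_succ_lt (k : ℕ) : a (k + 1) < a k := by
  rw [a_eq, a_eq]
  apply one_div_lt_one_div_of_lt (by positivity)
  push_cast
  have : (0:ℝ) ≤ k := Nat.cast_nonneg k
  nlinarith

lemma a_strictAnti : StrictAnti a := strictAnti_nat_of_succ_lt a_succ_lt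
lemma a_le {i j : ℕ} (h : i ≤ j) : a j ≤ a i := a_strictAnti.antitone h
lemma a_lt {i j : ℕ} (h : i < j) : a j < a i := a_strictAnti h

lemma b_strictAnti : StrictAnti b := strictAnti_nat_of_succ_lt fun k => by
  have := a_pos k
  rw [a_def] at this
  linarith

/-- the four rotating linear forms -/
def xi (k : ℕ) (z : ℂ) : ℝ := (z * (-Complex.I) ^ k).re

lemma xi_two (k : ℕ) (z : ℂ) : xi (k + 2) z = - xi k z := by
  unfold xi
  rw [pow_add, neg_sq, Complex.I_sq, mul_neg, mul_one, mul_neg, Complex.neg_re]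

lemma xi_zero (z : ℂ) : xi 0 z = z.re := by
  unfold xi; rw [pow_zero, mul_one]

lemma xi_one (z : ℂ) : xi 1 z = z.im := by
  unfold xi; rw [pow_one, mul_neg, Complex.neg_re, Complex.mul_I_re, neg_neg]

lemma xi_cont (k : ℕ) : Continuous (xi k) := by
  unfold xi
  exact Complex.continuous_re.comp (continuous_id.mul continuous_const)

lemma xi_add (k : ℕ) (z w : ℂ) : xi k (z + w) = xi k z + xi k w := by
  unfold xi; rw [add_mul, Complex.add_re]

lemma xi_smul (k : ℕ) (t : ℝ) (z : ℂ) : xi k (t • z) = t * xi k z := by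
  unfold xi
  rw [Complex.real_smul, mul_assoc, Complex.re_ofReal_mul]

lemma xi_zero_right (k : ℕ) : xi k 0 = 0 := by
  unfold xi; rw [zero_mul, Complex.zero_re]

lemma xi_max_const (k : ℕ) (z : ℂ) :
    max |xi k z| |xi (k + 1) z| = max |xi 0 z| |xi 1 z| := by
  induction k with
  | zero => rfl
  | succ k ih =>
    rw [show k + 1 + 1 = k + 2 from rfl, xi_two, abs_neg, max_comm]
    exact ih

lemma xi_le_max (k l : ℕ) (z : ℂ) : |xi l z| ≤ max |xi k z| |xi (k + 1) z| := by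
  rw [xi_max_const k z, ← xi_max_const l z]
  exact le_max_left _ _

lemma xi_lt_of (k l : ℕ) (z : ℂ) {c : ℝ} (h1 : |xi k z| < c) (h2 : |xi (k+1) z| < c) :
    |xi l z| < c := lt_of_le_of_lt (xi_le_max k l z) (max_lt h1 h2)

lemma xi_le_of (k l : ℕ) (z : ℂ) {c : ℝ} (h1 : |xi k z| ≤ c) (h2 : |xi (k+1) z| ≤ c) :
    |xi l z| ≤ c := le_trans (xi_le_max k l z) (max_le h1 h2)

lemma xi_le_norm (k : ℕ) (z : ℂ) : |xi k z| ≤ ‖z‖ := by
  refine le_trans (xi_le_max 0 k z) (max_le ?_ ?_)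
  · rw [xi_zero]; exact Complex.abs_re_le_norm z
  · rw [xi_one]; exact Complex.abs_im_le_norm z

lemma norm_le_of_xi (z : ℂ) {c : ℝ} (h : ∀ l, |xi l z| ≤ c) : ‖z‖ ≤ 2 * c := by
  have h0 := h 0
  have h1 := h 1
  rw [xi_zero] at h0
  rw [xi_one] at h1
  have := Complex.norm_le_abs_re_add_abs_im z
  linarith

/-- a point with prescribed forms -/
def mkz (k : ℕ) (x y : ℝ) : ℂ := (⟨x, y⟩ : ℂ) * Complex.I ^ k

lemma I_neg_I (k : ℕ) : Complex.I ^ k * (-Complex.I) ^ k = 1 := by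
  rw [← mul_pow, mul_neg, Complex.I_mul_I, neg_neg, one_pow]

lemma xi_mkz (k : ℕ) (x y : ℝ) : xi k (mkz k x y) = x := by
  unfold xi mkz
  rw [mul_assoc, I_neg_I, mul_one]

lemma xi_mkz_succ (k : ℕ) (x y : ℝ) : xi (k+1) (mkz k x y) = y := by
  unfold xi mkz
  rw [pow_succ, ← mul_assoc, mul_assoc _ (Complex.I ^ k), I_neg_I, mul_one, mul_neg,
    Complex.neg_re, Complex.mul_I_re, neg_neg]

/-- the nested rectangles -/
def P (k : ℕ) : Set ℂ :=
  {z | xi k z < a k ∧ xi (k+1) z < a (k+1) ∧ xi (k+2) z < a (k+2) ∧ xi (k+3) z < a (k+3)}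

/-- the closed nested rectangles -/
def Q (k : ℕ) : Set ℂ :=
  {z | xi k z ≤ a k ∧ xi (k+1) z ≤ a (k+1) ∧ xi (k+2) z ≤ a (k+2) ∧ xi (k+3) z ≤ a (k+3)}

/-- the cells -/
def R (j : ℕ) : Set ℂ :=
  {z | a (j+5) < xi (j+1) z ∧ xi (j+1) z < a (j+1) ∧ xi (j+2) z < a (j+2) ∧ -xi (j+2) z < a j}

/-- the radius loss -/
def psi (j : ℕ) (z : ℂ) : ℝ := xi (j+1) z + |xi (j+2) z - a (j+6)| + b (j+6) + b (j+7)

lemma psi_cont (j : ℕ) : Continuous (psi j) := by
  unfold psi
  have h1 := xi_cont (j+1)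
  have h2 := xi_cont (j+2)
  fun_prop

lemma R_sub_P (j : ℕ) : R j ⊆ P j := by
  rintro z ⟨h1, h2, h3, h4⟩
  have e1 := xi_two j z
  have e2 := xi_two (j+1) z
  have p1 := a_pos (j+5)
  have p2 := a_pos (j+3)
  refine ⟨?_, h2, h3, ?_⟩
  · linarith
  · show xi (j+1+2) z < _
    linarith

lemma P_succ (k : ℕ) : P (k+1) ⊆ P k := by
  rintro z ⟨h1, h2, h3, h4⟩
  have e1 : xi (k+4) z = xi k z := by
    rw [show k + 4 = k + 2 + 2 from rfl, xi_two, xi_two, neg_neg]
  refine ⟨?_, h1, h2, h3⟩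
  have h4' : xi (k+4) z < a (k+4) := h4
  have := a_lt (show k < k+4 by omega)
  linarith

lemma P_anti {i j : ℕ} (h : i ≤ j) : P j ⊆ P i := by
  induction j, h using Nat.le_induction with
  | base => exact le_rfl
  | succ j _ ih => exact (P_succ j).trans ih

lemma R_isOpen (j : ℕ) : IsOpen (R j) := by
  have h1 := xi_cont (j+1)
  have h2 := xi_cont (j+2)
  unfold R
  refine (isOpen_lt continuous_const h1).inter ((isOpen_lt h1 continuous_const).inter
    ((isOpen_lt h2 continuous_const).inter (isOpen_lt h2.neg continuous_const)))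

lemma P_sub_Q (k : ℕ) : P k ⊆ Q k := fun _ h => ⟨h.1.le, h.2.1.le, h.2.2.1.le, h.2.2.2.le⟩

lemma Q_isClosed (k : ℕ) : IsClosed (Q k) := by
  unfold Q
  refine (isClosed_le (xi_cont _) continuous_const).inter
    ((isClosed_le (xi_cont _) continuous_const).inter
    ((isClosed_le (xi_cont _) continuous_const).inter
      (isClosed_le (xi_cont _) continuous_const)))

lemma Q_xi {k : ℕ} {z : ℂ} (h : z ∈ Q k) (l : ℕ) : |xi l z| ≤ a k := by
  obtain ⟨h1, h2, h3, h4⟩ := h
  have e1 := xi_two k z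
  have e2 := xi_two (k+1) z
  have h4' : xi (k+1+2) z ≤ a (k+3) := h4
  have m1 := a_le (show k ≤ k+1 by omega)
  have m2 := a_le (show k ≤ k+2 by omega)
  have m3 := a_le (show k ≤ k+3 by omega)
  apply xi_le_of k l z
  · rw [abs_le]; constructor <;> linarith
  · rw [abs_le]; constructor <;> linarith

lemma R_xi {j : ℕ} {z : ℂ} (h : z ∈ R j) (l : ℕ) : |xi l z| < a j := by
  obtain ⟨h1, h2, h3, h4⟩ := h
  have m1 := a_lt (show j < j+1 by omega)
  have m2 := a_lt (show j < j+2 by omega)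
  have p1 := a_pos (j+5)
  have p2 := a_pos j
  apply xi_lt_of (j+1) l z
  · rw [abs_lt]; constructor <;> linarith
  · show |xi (j+2) z| < _
    rw [abs_lt]; constructor <;> linarith

/-- overlap of neighbouring cells -/
lemma psi_overlap {i : ℕ} {z : ℂ} (h1 : 0 < xi (i+1) z) (h2 : a (i+6) < xi (i+2) z) :
    psi i z = psi (i+1) z := by
  unfold psi
  have e : xi (i+1+2) z = - xi (i+1) z := xi_two (i+1) z
  rw [show i + 1 + 1 = i + 2 from rfl, e, show i + 1 + 6 = i + 7 from rfl,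
    show i + 1 + 7 = i + 8 from rfl]
  have p := a_pos (i+7)
  have q : a (i+7) = b (i+7) - b (i+8) := rfl
  have q' : a (i+6) = b (i+6) - b (i+7) := rfl
  rw [abs_of_pos (by linarith), abs_of_neg (by linarith)]
  linarith

lemma combi {j : ℕ} {z : ℂ} (h1 : a (j+5) < xi (j+1) z) (h2 : |xi (j+1) z| < a j)
    (h3 : |xi (j+2) z| < a j) {i : ℕ} (hi : z ∈ R i) :
    (z ∈ R j ∧ psi i z = psi j z) ∨
      ((i + 3 = j ∨ i + 4 = j) ∧ psi j z + 2 * (b (j+3) - b (j+7)) ≤ psi i z) := by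
  have hp5 := a_pos (j+5)
  rcases lt_or_ge i j with hij | hij
  · obtain ⟨l, rfl⟩ : ∃ l, j = i + 1 + l := ⟨j - (i+1), by omega⟩
    obtain ⟨r1, r2, r3, r4⟩ := hi
    rcases l with _ | _ | _ | _ | l
    · -- j = i+1
      left
      have h1' : a (i+6) < xi (i+2) z := h1
      have e : xi (i+1+2) z = - xi (i+1) z := xi_two (i+1) z
      have p1 := a_pos (i+5)
      have p2 := a_pos (i+3)
      refine ⟨⟨h1', r3, ?_, ?_⟩, ?_⟩
      · show xi (i+1+2) z < a (i+3)
        linarith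
      · show -xi (i+1+2) z < a (i+1)
        linarith
      · exact psi_overlap (by linarith) h1'
    · -- j = i+2
      exfalso
      have h1' : a (i+7) < xi (i+1+2) z := h1
      rw [xi_two] at h1'
      have p1 := a_pos (i+5)
      have p2 := a_pos (i+7)
      linarith
    · -- j = i+3
      right
      refine ⟨Or.inl rfl, ?_⟩
      have h1' : a (i+8) < xi (i+2+2) z := h1
      rw [xi_two] at h1'
      show psi (i+3) z + 2 * (b (i+6) - b (i+10)) ≤ psi i z
      unfold psi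
      have e1 : xi (i+3+1) z = - xi (i+2) z := xi_two (i+2) z
      have e2 : xi (i+3+2) z = xi (i+1) z := by
        rw [show i + 3 + 2 = i + 1 + 2 + 2 from rfl, xi_two, xi_two, neg_neg]
      rw [e1, e2, show i + 3 + 6 = i + 9 from rfl, show i + 3 + 7 = i + 10 from rfl]
      have q1 : a (i+9) = b (i+9) - b (i+10) := rfl
      have q2 : a (i+6) = b (i+6) - b (i+7) := rfl
      have m1 := a_lt (show i+5 < i+9 by omega)
      have p8 := a_pos (i+8)
      have p6 := a_pos (i+6)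
      rw [abs_of_pos (show 0 < xi (i+1) z - a (i+9) by linarith),
        abs_of_neg (show xi (i+2) z - a (i+6) < 0 by linarith)]
      linarith
    · -- j = i+4
      right
      refine ⟨Or.inr rfl, ?_⟩
      show psi (i+4) z + 2 * (b (i+7) - b (i+11)) ≤ psi i z
      unfold psi
      have e1 : xi (i+4+1) z = xi (i+1) z := by
        rw [show i + 4 + 1 = i + 1 + 2 + 2 from rfl, xi_two, xi_two, neg_neg]
      have e2 : xi (i+4+2) z = xi (i+2) z := by
        rw [show i + 4 + 2 = i + 2 + 2 + 2 from rfl, xi_two, xi_two, neg_neg]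
      rw [e1, e2, show i + 4 + 6 = i + 10 from rfl, show i + 4 + 7 = i + 11 from rfl]
      have q1 : a (i+10) = b (i+10) - b (i+11) := rfl
      have q2 : a (i+6) = b (i+6) - b (i+7) := rfl
      have m1 := a_lt (show i+6 < i+10 by omega)
      have t1 : |xi (i+2) z - a (i+10)| ≤ |xi (i+2) z - a (i+6)| + |a (i+6) - a (i+10)| := by
        have := abs_add_le (xi (i+2) z - a (i+6)) (a (i+6) - a (i+10))
        rwa [sub_add_sub_cancel] at this
      rw [abs_of_pos (show 0 < a (i+6) - a (i+10) by linarith)] at t1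
      linarith
    · exfalso
      have e : |xi (i+1) z| < a (i + 1 + (l + 1 + 1 + 1 + 1)) := by
        apply xi_lt_of (i + 1 + (l + 1 + 1 + 1 + 1) + 1) (i+1) z h2 h3
      have m := a_le (show i + 5 ≤ i + 1 + (l + 1 + 1 + 1 + 1) by omega)
      have := le_abs_self (xi (i+1) z)
      linarith
  · rcases hij.eq_or_lt with h | h
    · subst h
      exact Or.inl ⟨hi, rfl⟩
    · rcases (show j + 1 ≤ i from h).eq_or_lt with h' | h'
      · subst h'
        left
        obtain ⟨r1, r2, r3, r4⟩ := hi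
        have r1' : a (j+6) < xi (j+2) z := r1
        have r4' : -xi (j+1+2) z < a (j+1) := r4
        rw [xi_two] at r4'
        have r2' : xi (j+2) z < a (j+2) := r2
        have p1 := a_pos (j+6)
        have p2 := a_pos j
        refine ⟨⟨h1, by linarith, r2', by linarith⟩, ?_⟩
        exact (psi_overlap (by linarith) r1').symm
      · exfalso
        have hP := P_anti (show j + 2 ≤ i from h') (R_sub_P i hi)
        obtain ⟨-, -, -, h4⟩ := hP
        have h4' : xi (j+1+2+2) z < a (j+5) := h4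
        rw [xi_two, xi_two, neg_neg] at h4'
        linarith

lemma psi_le_of_mem {i j : ℕ} {z : ℂ} (hi : z ∈ R i) (hj : z ∈ R j) : psi j z ≤ psi i z := by
  obtain ⟨r1, r2, r3, r4⟩ := id hj
  rcases combi r1 (R_xi hj _) (R_xi hj _) hi with h | h
  · exact h.2.ge
  · have := b_strictAnti (show j + 3 < j + 7 by omega)
    linarith [h.2]

lemma psi_lower {i : ℕ} {z : ℂ} (hi : z ∈ R i) : b (i+6) < psi i z := by
  obtain ⟨r1, r2, r3, r4⟩ := hi
  unfold psi
  have p1 := a_pos (i+5)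
  have p2 := b_pos (i+7)
  have := abs_nonneg (xi (i+2) z - a (i+6))
  linarith

lemma psi_upper {i : ℕ} {z : ℂ} (hi : z ∈ R i) : psi i z ≤ 4 := by
  have h1 := le_abs_self (xi (i+1) z)
  have h2 := R_xi hi (i+1)
  have h3 := R_xi hi (i+2)
  have h4 := a_le_half i
  have h5 := a_le_half (i+6)
  have p5 := a_pos (i+6)
  have h6 := b_le_one (i+6)
  have h7 := b_le_one (i+7)
  have h8 : |xi (i+2) z - a (i+6)| ≤ |xi (i+2) z| + a (i+6) := by
    have := abs_sub (xi (i+2) z) (a (i+6))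
    rwa [abs_of_pos p5] at this
  unfold psi
  linarith

lemma zero_notMem_R (i : ℕ) : (0:ℂ) ∉ R i := by
  rintro ⟨r1, -⟩
  rw [xi_zero_right] at r1
  have := a_pos (i+5)
  linarith

lemma R_convex (j : ℕ) : Convex ℝ (R j) := by
  rintro z ⟨h1, h2, h3, h4⟩ w ⟨k1, k2, k3, k4⟩ s t hs ht hst
  have e1 : xi (j+1) (s • z + t • w) = s * xi (j+1) z + t * xi (j+1) w := by
    rw [xi_add, xi_smul, xi_smul]
  have e2 : xi (j+2) (s • z + t • w) = s * xi (j+2) z + t * xi (j+2) w := by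
    rw [xi_add, xi_smul, xi_smul]
  have key : ∀ u v c : ℝ, u < c → v < c → s * u + t * v < c := by
    intro u v c hu hv
    have : s * u + t * v < s * c + t * c := by
      rcases hs.eq_or_lt with h | h
      · subst h
        have : t = 1 := by linarith
        subst this; linarith
      · have := mul_lt_mul_of_pos_left hu h
        have := mul_le_mul_of_nonneg_left hv.le ht
        linarith
    rwa [← add_mul, hst, one_mul] at this
  refine ⟨?_, ?_, ?_, ?_⟩
  · have := key (-xi (j+1) z) (-xi (j+1) w) (-a (j+5)) (by linarith) (by linarith)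
    rw [e1]; linarith
  · rw [e1]; exact key _ _ _ h2 k2
  · rw [e2]; exact key _ _ _ h3 k3
  · have := key (-xi (j+2) z) (-xi (j+2) w) (a j) (by linarith) (by linarith)
    rw [e2]; linarith

lemma psi_convex (j : ℕ) (z w : ℂ) (s t : ℝ) (hs : 0 ≤ s) (ht : 0 ≤ t) (hst : s + t = 1) :
    psi j (s • z + t • w) ≤ s * psi j z + t * psi j w := by
  have e1 : xi (j+1) (s • z + t • w) = s * xi (j+1) z + t * xi (j+1) w := by
    rw [xi_add, xi_smul, xi_smul]
  have e2 : xi (j+2) (s • z + t • w) = s * xi (j+2) z + t * xi (j+2) w := by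
    rw [xi_add, xi_smul, xi_smul]
  unfold psi
  rw [e1, e2]
  have e3 : s * xi (j+2) z + t * xi (j+2) w - a (j+6)
      = s * (xi (j+2) z - a (j+6)) + t * (xi (j+2) w - a (j+6)) := by
    have : a (j+6) = (s + t) * a (j+6) := by rw [hst, one_mul]
    linear_combination (-1 : ℝ) * this
  have h4 := abs_add_le (s * (xi (j+2) z - a (j+6))) (t * (xi (j+2) w - a (j+6)))
  rw [abs_mul, abs_mul, abs_of_nonneg hs, abs_of_nonneg ht] at h4
  rw [e3]
  have h5 : b (j+6) = (s + t) * b (j+6) := by rw [hst, one_mul]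
  have h6 : b (j+7) = (s + t) * b (j+7) := by rw [hst, one_mul]
  nlinarith

/-- the pieces of the domain -/
def piece (m j : ℕ) : Set (Fin (m+2) → ℂ) := {x | x 0 ∈ R j ∧ ‖tl x‖ < 10 - psi j (x 0)}

/-- the domain -/
def Dom (m : ℕ) : Set (Fin (m+2) → ℂ) := ⋃ j, piece m j

lemma tl_cont {m : ℕ} : Continuous (tl : (Fin (m+2) → ℂ) → Fin (m+1) → ℂ) :=
  continuous_pi fun j => continuous_apply j.succ

lemma piece_isOpen (m j : ℕ) : IsOpen (piece m j) := by
  unfold piece
  have h0 : Continuous fun x : Fin (m+2) → ℂ => x 0 := continuous_apply 0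
  refine ((R_isOpen j).preimage h0).inter ?_
  exact isOpen_lt tl_cont.norm (continuous_const.sub ((psi_cont j).comp h0))

lemma piece_convex (m j : ℕ) : Convex ℝ (piece m j) := by
  rintro x ⟨hx1, hx2⟩ y ⟨hy1, hy2⟩ s t hs ht hst
  have e0 : (s • x + t • y) 0 = s • x 0 + t • y 0 := rfl
  have e1 : tl (s • x + t • y) = s • tl x + t • tl y := rfl
  refine ⟨?_, ?_⟩
  · rw [e0]; exact R_convex j hx1 hy1 hs ht hst
  · rw [e0, e1]
    have h1 := psi_convex j (x 0) (y 0) s t hs ht hst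
    have h2 : ‖s • tl x + t • tl y‖ ≤ s * ‖tl x‖ + t * ‖tl y‖ := by
      calc ‖s • tl x + t • tl y‖ ≤ ‖s • tl x‖ + ‖t • tl y‖ := norm_add_le _ _
        _ = _ := by rw [norm_smul, norm_smul, Real.norm_of_nonneg hs, Real.norm_of_nonneg ht]
    have h3 : s * ‖tl x‖ + t * ‖tl y‖ < s * (10 - psi j (x 0)) + t * (10 - psi j (y 0)) := by
      rcases hs.eq_or_lt with h | h
      · subst h
        have : t = 1 := by linarith
        subst this; linarith
      · have := mul_lt_mul_of_pos_left hx2 h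
        have := mul_le_mul_of_nonneg_left hy2.le ht
        linarith
    have h4 : s * (10 - psi j (x 0)) + t * (10 - psi j (y 0))
        = 10 - (s * psi j (x 0) + t * psi j (y 0)) := by
      have : (10 : ℝ) = (s + t) * 10 := by rw [hst, one_mul]
      linear_combination (-1 : ℝ) * this
    linarith

lemma mem_piece_zero {m j : ℕ} {z : ℂ} (hz : z ∈ R j) : pt z 0 ∈ piece m j := by
  refine ⟨hz, ?_⟩
  rw [tl_pt, norm_zero, pt_zero]
  have := psi_upper hz
  linarith

/-- centre point of a cell -/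
lemma centre_mem (j : ℕ) : mkz (j+1) ((a (j+5) + a (j+1)) / 2) 0 ∈ R j := by
  have m1 := a_lt (show j+1 < j+5 by omega)
  have p2 := a_pos (j+2)
  have p3 := a_pos j
  refine ⟨?_, ?_, ?_, ?_⟩
  · rw [xi_mkz]; linarith
  · rw [xi_mkz]; linarith
  · show xi (j+1+1) _ < _
    rw [xi_mkz_succ]; linarith
  · show -xi (j+1+1) _ < _
    rw [xi_mkz_succ]; linarith

lemma overlap_mem (j : ℕ) : ∃ z, z ∈ R j ∧ z ∈ R (j+1) := by
  have m1 := a_lt (show j+1 < j+5 by omega)
  have m2 := a_lt (show j+2 < j+6 by omega)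
  have p2 := a_pos (j+2)
  have p3 := a_pos j
  have p4 := a_pos (j+6)
  have p5 := a_pos (j+5)
  have p6 := a_pos (j+3)
  have p7 := a_pos (j+1)
  refine ⟨mkz (j+1) ((a (j+5) + a (j+1)) / 2) ((a (j+6) + a (j+2)) / 2), ?_, ?_⟩
  · refine ⟨?_, ?_, ?_, ?_⟩
    · rw [xi_mkz]; linarith
    · rw [xi_mkz]; linarith
    · show xi (j+1+1) _ < _
      rw [xi_mkz_succ]; linarith
    · show -xi (j+1+1) _ < _
      rw [xi_mkz_succ]; linarith
  · refine ⟨?_, ?_, ?_, ?_⟩
    · show a (j+6) < xi (j+1+1) _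
      rw [xi_mkz_succ]; linarith
    · show xi (j+1+1) _ < a (j+2)
      rw [xi_mkz_succ]; linarith
    · show xi (j+1+2) _ < a (j+3)
      rw [xi_two, xi_mkz]; linarith
    · show -xi (j+1+2) _ < a (j+1)
      rw [xi_two, xi_mkz]; linarith

lemma Dom_isOpen (m : ℕ) : IsOpen (Dom m) := isOpen_iUnion fun j => piece_isOpen m j

lemma Dom_isConnected (m : ℕ) : IsConnected (Dom m) := by
  apply IsConnected.iUnion_of_chain
  · intro j
    exact ⟨⟨_, mem_piece_zero (centre_mem j)⟩, (piece_convex m j).isPreconnected⟩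
  · intro j
    obtain ⟨z, hz1, hz2⟩ := overlap_mem j
    exact ⟨pt z 0, mem_piece_zero hz1, mem_piece_zero hz2⟩

lemma Dom_tl {m : ℕ} {x : Fin (m+2) → ℂ} (hx : x ∈ Dom m) : ‖tl x‖ < 10 := by
  obtain ⟨j, hj1, hj2⟩ := mem_iUnion.mp hx
  have := psi_lower hj1
  have := b_pos (j+6)
  linarith

lemma Dom_isBounded (m : ℕ) : Bornology.IsBounded (Dom m) := by
  refine (Metric.isBounded_closedBall (x := (0 : Fin (m+2) → ℂ)) (r := 10)).subset ?_
  intro x hx
  rw [mem_closedBall_zero_iff, pi_norm_le_iff_of_nonneg (by norm_num)]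
  intro i
  refine Fin.cases ?_ (fun i => ?_) i
  · obtain ⟨j, hj1, hj2⟩ := mem_iUnion.mp hx
    have h1 := norm_le_of_xi (x 0) (fun l => (R_xi hj1 l).le)
    have h2 := a_le_half j
    linarith
  · exact le_trans (norm_le_pi_norm (tl x) i) (Dom_tl hx).le



lemma wall_notMem {z : ℂ} (h5 : z.im = a 5) (h6 : |z.re| < a 6) (i : ℕ) : z ∉ R i := by
  intro hi
  have e1 : xi 1 z = z.im := xi_one z
  have e0 : xi 0 z = z.re := xi_zero z
  have e5 : xi 5 z = z.im := by
    rw [show (5:ℕ) = 1 + 2 + 2 from rfl, xi_two, xi_two, neg_neg, e1]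
  have e6 : xi 6 z = -z.re := by
    rw [show (6:ℕ) = 0 + 2 + 2 + 2 from rfl, xi_two, xi_two, xi_two, neg_neg, e0]
  have m1 := a_lt (show 5 < 9 by omega)
  have m2 := a_lt (show 4 < 5 by omega)
  have m3 := a_lt (show 4 < 6 by omega)
  have p5 := a_pos 5
  have h1 : a (4+5) < xi (4+1) z := by
    show a 9 < xi 5 z
    rw [e5, h5]; exact m1
  have h2 : |xi (4+1) z| < a 4 := by
    show |xi 5 z| < a 4
    rw [e5, h5, abs_of_pos p5]; exact m2
  have h3 : |xi (4+2) z| < a 4 := by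
    show |xi 6 z| < a 4
    rw [e6, abs_neg]; linarith
  rcases combi h1 h2 h3 hi with ⟨h, -⟩ | ⟨h | h, -⟩
  · have := h.2.1
    have h' : xi 5 z < a 5 := this
    rw [e5, h5] at h'
    exact lt_irrefl _ h'
  · obtain rfl : i = 1 := by omega
    have h' : a 6 < xi 2 z := hi.1
    have e2 : xi 2 z = - z.re := by
      rw [show (2:ℕ) = 0 + 2 from rfl, xi_two, e0]
    rw [e2] at h'
    have := neg_abs_le z.re
    linarith
  · obtain rfl : i = 0 := by omega
    have h' : a 5 < xi 1 z := hi.1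
    rw [e1, h5] at h'
    exact lt_irrefl _ h'

lemma Dom_not_CConvex (m : ℕ) : ¬ CConvex (Dom m) := by
  intro hC
  have q1 : a 1 = 1/6 := by rw [a_eq]; norm_num
  have q0 : a 0 = 1/2 := by rw [a_eq]; norm_num
  have q2 : a 2 = 1/12 := by rw [a_eq]; norm_num
  have q5 : a 5 = 1/42 := by rw [a_eq]; norm_num
  have q6 : a 6 = 1/56 := by rw [a_eq]; norm_num
  have q9 : a 9 = 1/110 := by rw [a_eq]; norm_num
  have q4 : a 4 = 1/30 := by rw [a_eq]; norm_num
  obtain ⟨p, hp⟩ : ∃ p : Fin (m+2) → ℂ, p = pt ((a 5 : ℂ) * Complex.I) 0 := ⟨_, rfl⟩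
  obtain ⟨v, hv⟩ : ∃ v : Fin (m+2) → ℂ, v = pt ((a 6 / 10 : ℝ) : ℂ) (sg 0 1) := ⟨_, rfl⟩
  have hv0 : v ≠ 0 := by
    intro h
    have h1 := congrArg tl h
    rw [hv, tl_pt] at h1
    have h2 := congrArg norm h1
    rw [norm_sg] at h2
    have h3 : ‖tl (0 : Fin (m+2) → ℂ)‖ = 0 := by
      have : tl (0 : Fin (m+2) → ℂ) = 0 := rfl
      rw [this, norm_zero]
    rw [h3, norm_one] at h2
    exact one_ne_zero h2
  have hx0 : ∀ t : ℂ, (p + t • v) 0 = (a 5 : ℂ) * Complex.I + t * ((a 6 / 10 : ℝ) : ℂ) := by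
    intro t
    rw [hp, hv]; rfl
  have hxt : ∀ t : ℂ, tl (p + t • v) = t • sg 0 1 := by
    intro t
    have : tl (p + t • v) = tl p + t • tl v := rfl
    rw [this, hp, hv, tl_pt, tl_pt, zero_add]
  have hxtn : ∀ t : ℂ, ‖tl (p + t • v)‖ = ‖t‖ := by
    intro t
    rw [hxt, norm_smul, norm_sg, norm_one, mul_one]
  have him : ∀ t : ℂ, ((p + t • v) 0).im = a 5 + t.im * (a 6 / 10) := by
    intro t
    rw [hx0, Complex.add_im, Complex.im_mul_ofReal]
    simp
  have hre : ∀ t : ℂ, ((p + t • v) 0).re = t.re * (a 6 / 10) := by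
    intro t
    rw [hx0, Complex.add_re, Complex.re_mul_ofReal]
    simp
  -- the slice avoids the wall
  have hne : ∀ x ∈ Dom m ∩ cline p v, (x 0).im ≠ a 5 := by
    rintro x ⟨hxD, t, rfl⟩ him5
    have h1 := Dom_tl hxD
    rw [hxtn] at h1
    obtain ⟨j, hj1, hj2⟩ := mem_iUnion.mp hxD
    refine wall_notMem him5 ?_ j hj1
    rw [hre, abs_mul, abs_of_pos (show 0 < a 6 / 10 by rw [q6]; norm_num)]
    have h2 := Complex.abs_re_le_norm t
    have p6 := a_pos 6
    have : |t.re| < 10 := by linarith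
    nlinarith [abs_nonneg t.re]
  -- two points
  have hmemI : ∀ (t : ℂ) (j : ℕ), ‖t‖ = 1 → (p + t • v) 0 ∈ R j →
      p + t • v ∈ Dom m ∩ cline p v := by
    intro t j ht hR
    refine ⟨mem_iUnion.mpr ⟨j, hR, ?_⟩, t, rfl⟩
    rw [hxtn, ht]
    have := psi_upper hR
    linarith
  have e1 : ∀ z : ℂ, xi 1 z = z.im := xi_one
  have e0 : ∀ z : ℂ, xi 0 z = z.re := xi_zero
  have e2 : ∀ z : ℂ, xi 2 z = -z.re := by
    intro z
    rw [show (2:ℕ) = 0 + 2 from rfl, xi_two, e0]
  have e5 : ∀ z : ℂ, xi 5 z = z.im := by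
    intro z
    rw [show (5:ℕ) = 1 + 2 + 2 from rfl, xi_two, xi_two, neg_neg, e1]
  have e6 : ∀ z : ℂ, xi 6 z = -z.re := by
    intro z
    rw [show (6:ℕ) = 0 + 2 + 2 + 2 from rfl, xi_two, xi_two, xi_two, neg_neg, e0]
  have hup : p + Complex.I • v ∈ Dom m ∩ cline p v := by
    refine hmemI Complex.I 0 Complex.norm_I ?_
    refine ⟨?_, ?_, ?_, ?_⟩
    · show a 5 < xi 1 _
      rw [e1, him, Complex.I_im, q5, q6]; norm_num
    · show xi 1 _ < a 1
      rw [e1, him, Complex.I_im, q5, q6, q1]; norm_num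
    · show xi 2 _ < a 2
      rw [e2, hre, Complex.I_re, q2, q6]; norm_num
    · show -xi 2 _ < a 0
      rw [e2, hre, Complex.I_re, q0, q6]; norm_num
  have hdn : p + (-Complex.I) • v ∈ Dom m ∩ cline p v := by
    refine hmemI (-Complex.I) 4 (by rw [norm_neg, Complex.norm_I]) ?_
    refine ⟨?_, ?_, ?_, ?_⟩
    · show a 9 < xi 5 _
      rw [e5, him, Complex.neg_im, Complex.I_im, q5, q6, q9]; norm_num
    · show xi 5 _ < a 5
      rw [e5, him, Complex.neg_im, Complex.I_im, q5, q6]; norm_num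
    · show xi 6 _ < a 6
      rw [e6, hre, Complex.neg_re, Complex.I_re, q6]; norm_num
    · show -xi 6 _ < a 4
      rw [e6, hre, Complex.neg_re, Complex.I_re, q6, q4]; norm_num
  rcases hC p v hv0 with h | ⟨hconn, -⟩
  · rw [h] at hup
    exact hup
  · have hcont : ContinuousOn (fun x : Fin (m+2) → ℂ => (x 0).im) (Dom m ∩ cline p v) :=
      (Complex.continuous_im.comp (continuous_apply 0)).continuousOn
    have hiv := hconn.isPreconnected.intermediate_value hdn hup hcont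
    have : a 5 ∈ Icc ((p + (-Complex.I) • v) 0).im ((p + Complex.I • v) 0).im := by
      rw [him, him, Complex.neg_im, Complex.I_im, q6]
      constructor <;> linarith
    obtain ⟨x, hx, hxe⟩ := hiv this
    exact hne x hx hxe

lemma b_tendsto : Tendsto b atTop (𝓝 0) := tendsto_one_div_add_atTop_nhds_zero_nat

lemma a_le_b (k : ℕ) : a k ≤ b k := by
  have := b_pos (k+1)
  rw [a_def]; linarith

lemma b_le {i j : ℕ} (h : i ≤ j) : b j ≤ b i := b_strictAnti.antitone h

lemma exists_small (η : ℝ) (hη : 0 < η) : ∃ k, ∃ z ∈ R k, ‖z‖ < η ∧ psi k z < η := by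
  obtain ⟨k, hk⟩ := (b_tendsto.eventually (gt_mem_nhds (show 0 < η / 4 by linarith))).exists
  refine ⟨k, _, centre_mem k, ?_, ?_⟩
  · have h1 := norm_le_of_xi _ (fun l => (R_xi (centre_mem k) l).le)
    have h2 := a_le_b k
    linarith
  · unfold psi
    rw [show k + 2 = k + 1 + 1 from rfl, xi_mkz, xi_mkz_succ, zero_sub, abs_neg,
      abs_of_pos (a_pos _)]
    have h1 := a_le_b (k+1)
    have h2 := a_le_b (k+6)
    have h3 := b_le (show k ≤ k+1 by omega)
    have h4 := b_le (show k ≤ k+6 by omega)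
    have h5 := b_le (show k ≤ k+7 by omega)
    have h6 := a_le (show k+1 ≤ k+5 by omega)
    linarith

lemma small_ratio (K : ℝ) (hK : 0 < K) :
    ∃ ε > 0, ∀ i z, z ∈ R i → ‖z‖ < ε → K * ‖z‖ < psi i z := by
  obtain ⟨N, hN⟩ := exists_nat_gt (14 * K)
  refine ⟨a (N+5), a_pos _, ?_⟩
  intro i z hz hzε
  have h1 : a (i+5) < a (N+5) :=
    lt_of_lt_of_le hz.1 (le_trans (le_abs_self _) (le_trans (xi_le_norm _ _) hzε.le))
  have h2 : N < i := by
    have := a_strictAnti.lt_iff_gt.mp h1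
    omega
  have h3 := norm_le_of_xi z (fun l => (R_xi hz l).le)
  have h4 : K * (2 * a i) ≤ b (i+6) := by
    rw [a_eq]; unfold b
    have hi : (N:ℝ) + 1 ≤ i := by exact_mod_cast h2
    have hN0 : (0:ℝ) ≤ N := Nat.cast_nonneg N
    rw [mul_one_div, mul_div_assoc', div_le_div_iff₀ (by positivity) (by positivity)]
    push_cast
    nlinarith [mul_pos hK hK]
  have h5 := psi_lower hz
  have h6 : K * ‖z‖ ≤ K * (2 * a i) := mul_le_mul_of_nonneg_left h3 hK.le
  linarith

lemma Dom_x0_ne {m : ℕ} {x : Fin (m+2) → ℂ} (hx : x ∈ Dom m) : x 0 ≠ 0 := by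
  obtain ⟨j, hj1, hj2⟩ := mem_iUnion.mp hx
  intro h
  rw [h] at hj1
  exact zero_notMem_R j hj1

lemma frontier_zero {m : ℕ} (w₀ : Fin (m+1) → ℂ) (hcl : pt 0 w₀ ∈ closure (Dom m)) :
    @IsConnected _ (projTopology (m+2)) (Gamma (Dom m) (pt 0 w₀)) := by
  have hle : ‖w₀‖ ≤ 10 := by
    have hc : IsClosed {x : Fin (m+2) → ℂ | ‖tl x‖ ≤ 10} :=
      isClosed_le tl_cont.norm continuous_const
    have : closure (Dom m) ⊆ {x : Fin (m+2) → ℂ | ‖tl x‖ ≤ 10} :=
      closure_minimal (fun x hx => (Dom_tl hx).le) hc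
    exact this hcl
  rcases hle.lt_or_eq with h | h
  · refine gamma_conn_vertical 0 w₀ (fun x hx => Dom_x0_ne hx) ((10 - ‖w₀‖) / 2)
      (by linarith) ?_
    intro ε hε
    obtain ⟨k, z, hz, hz1, hz2⟩ := exists_small (min ε ((10 - ‖w₀‖) / 2))
      (lt_min hε (by linarith))
    refine ⟨z, ?_, ?_⟩
    · rw [sub_zero]; exact lt_of_lt_of_le hz1 (min_le_left _ _)
    · intro w hw
      refine mem_iUnion.mpr ⟨k, hz, ?_⟩
      rw [tl_pt, pt_zero]
      have := lt_of_lt_of_le hz2 (min_le_right _ _)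
      linarith
  · refine gamma_conn_centre w₀ (fun x hx => Dom_x0_ne hx) ?_ ?_
    · intro K hK
      obtain ⟨ε, hε, h1⟩ := small_ratio K hK
      refine ⟨ε, hε, ?_⟩
      intro x hx hxε
      obtain ⟨j, hj1, hj2⟩ := mem_iUnion.mp hx
      have := h1 j (x 0) hj1 hxε
      linarith
    · intro ρ hρ ε hε
      obtain ⟨k, z, hz, hz1, hz2⟩ := exists_small (min ε (‖w₀‖ - ρ))
        (lt_min hε (by linarith))
      refine ⟨z, lt_of_lt_of_le hz1 (min_le_left _ _), ?_⟩
      intro w hw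
      refine mem_iUnion.mpr ⟨k, hz, ?_⟩
      rw [tl_pt, pt_zero]
      have := lt_of_lt_of_le hz2 (min_le_right _ _)
      linarith

lemma cont_zero {m : ℕ} : Continuous fun x : Fin (m+2) → ℂ => x 0 := continuous_apply 0

lemma frontier_cell {m : ℕ} {p : Fin (m+2) → ℂ} (hcl : p ∈ closure (Dom m)) (hp : p ∉ Dom m)
    {j : ℕ} (hj : p 0 ∈ R j) :
    @IsConnected _ (projTopology (m+2)) (Gamma (Dom m) p) := by
  refine gamma_conn_convex (piece_isOpen m j) (piece_convex m j) hcl hp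
    (subset_iUnion (piece m) j) ?_
  have h1 : ∀ᶠ x : Fin (m+2) → ℂ in 𝓝 p, x 0 ∈ R j :=
    (cont_zero.tendsto p).eventually ((R_isOpen j).mem_nhds hj)
  filter_upwards [h1] with x hx hD
  obtain ⟨i, hi1, hi2⟩ := mem_iUnion.mp hD
  have := psi_le_of_mem hi1 hx
  exact ⟨hx, by linarith⟩

lemma frontier_main {m : ℕ} {p : Fin (m+2) → ℂ} (hcl : p ∈ closure (Dom m)) (hp : p ∉ Dom m)
    (hz : p 0 ≠ 0) (hR : ∀ j, p 0 ∉ R j) :
    @IsConnected _ (projTopology (m+2)) (Gamma (Dom m) p) := by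
  have hQ0 : p 0 ∈ Q 0 := by
    have hc : IsClosed {x : Fin (m+2) → ℂ | x 0 ∈ Q 0} := (Q_isClosed 0).preimage cont_zero
    have : closure (Dom m) ⊆ {x : Fin (m+2) → ℂ | x 0 ∈ Q 0} := by
      refine closure_minimal (fun x hx => ?_) hc
      obtain ⟨j, hj1, hj2⟩ := mem_iUnion.mp hx
      exact P_sub_Q 0 (P_anti (Nat.zero_le j) (R_sub_P j hj1))
    exact this hcl
  have hex : ∃ k, p 0 ∉ Q k := by
    by_contra hcon
    push Not at hcon
    have hpos : 0 < ‖p 0‖ := norm_pos_iff.mpr hz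
    obtain ⟨k, hk⟩ := (b_tendsto.eventually (gt_mem_nhds (show 0 < ‖p 0‖ / 2 by linarith))).exists
    have h1 := norm_le_of_xi (p 0) (fun l => Q_xi (hcon k) l)
    have h2 := a_le_b k
    linarith
  classical
  obtain ⟨k, hk1, hk2⟩ : ∃ k, p 0 ∈ Q k ∧ p 0 ∉ Q (k+1) := by
    have h1 := Nat.find_spec hex
    have h2 : Nat.find hex ≠ 0 := by
      intro h
      rw [h] at h1
      exact h1 hQ0
    obtain ⟨k, hk⟩ := Nat.exists_eq_succ_of_ne_zero h2
    refine ⟨k, ?_, ?_⟩
    · by_contra h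
      exact Nat.find_min hex (by omega) h
    · rw [hk] at h1; exact h1
  have hk3 : a (k+4) < xi k (p 0) := by
    by_contra h
    push Not at h
    apply hk2
    refine ⟨hk1.2.1, hk1.2.2.1, hk1.2.2.2, ?_⟩
    show xi (k+2+2) (p 0) ≤ a (k+4)
    rw [xi_two, xi_two, neg_neg]
    exact h
  have hev1 : ∀ᶠ x : Fin (m+2) → ℂ in 𝓝 p, a (k+4) < xi k (x 0) :=
    (((xi_cont k).comp cont_zero).tendsto p).eventually (lt_mem_nhds hk3)
  rcases k with _ | j
  · -- only the outermost cell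
    refine gamma_conn_convex (piece_isOpen m 0) (piece_convex m 0) hcl hp
      (subset_iUnion (piece m) 0) ?_
    filter_upwards [hev1] with x hx hD
    obtain ⟨i, hi1, hi2⟩ := mem_iUnion.mp hD
    rcases Nat.eq_zero_or_pos i with h | h
    · subst h; exact ⟨hi1, hi2⟩
    · exfalso
      have h1 := (P_anti (show 1 ≤ i from h) (R_sub_P i hi1)).2.2.2
      have h2 : xi (0+2+2) (x 0) < a 4 := h1
      rw [xi_two, xi_two, neg_neg] at h2
      have hx' : a 4 < xi 0 (x 0) := hx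
      linarith
  · have hk3' : a (j+5) < xi (j+1) (p 0) := hk3
    have habs : ∀ l, |xi l (p 0)| < a j := fun l =>
      lt_of_le_of_lt (Q_xi hk1 l) (a_lt (show j < j+1 by omega))
    have hev2 : ∀ᶠ x : Fin (m+2) → ℂ in 𝓝 p, |xi (j+1) (x 0)| < a j :=
      (((xi_cont (j+1)).comp cont_zero).abs.tendsto p).eventually (gt_mem_nhds (habs _))
    have hev3 : ∀ᶠ x : Fin (m+2) → ℂ in 𝓝 p, |xi (j+2) (x 0)| < a j :=
      (((xi_cont (j+2)).comp cont_zero).abs.tendsto p).eventually (gt_mem_nhds (habs _))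
    rcases lt_or_ge ‖tl p‖ (10 - psi j (p 0)) with hlt | hge
    · -- vertical case
      have hpe : p = pt (p 0) (tl p) := (pt_tl p).symm
      obtain ⟨δ, hδ⟩ : ∃ δ : ℝ, δ = (10 - psi j (p 0) - ‖tl p‖) / 2 := ⟨_, rfl⟩
      have hδ0 : 0 < δ := by rw [hδ]; linarith
      rw [hpe]
      refine gamma_conn_vertical (p 0) (tl p) ?_ δ hδ0 ?_
      · intro x hx h0
        obtain ⟨i, hi1, hi2⟩ := mem_iUnion.mp hx
        rw [h0] at hi1
        exact hR i hi1
      · intro ε hε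
        -- approach p 0 from inside the cell
        obtain ⟨c, hc⟩ : ∃ c : ℂ, c = mkz (j+1) ((a (j+5) + a (j+1)) / 2) 0 := ⟨_, rfl⟩
        have hcR : c ∈ R j := by rw [hc]; exact centre_mem j
        have htend : Tendsto (fun t : ℝ => p 0 + t • (c - p 0)) (𝓝[>] 0) (𝓝 (p 0)) := by
          have : Tendsto (fun t : ℝ => p 0 + t • (c - p 0)) (𝓝 0)
              (𝓝 (p 0 + (0:ℝ) • (c - p 0))) := Continuous.tendsto (by fun_prop) 0
          rw [zero_smul, add_zero] at this
          exact this.mono_left nhdsWithin_le_nhds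
        have hin : ∀ t : ℝ, t ∈ Ioo (0:ℝ) 1 → p 0 + t • (c - p 0) ∈ R j := by
          intro t ht
          have e : ∀ l, xi l (p 0 + t • (c - p 0)) = xi l (p 0) + t * (xi l c - xi l (p 0)) := by
            intro l
            have : xi l (c - p 0) = xi l c - xi l (p 0) := by
              rw [sub_eq_add_neg, xi_add, show -(p 0) = (-1:ℝ) • p 0 by simp, xi_smul]; ring
            rw [xi_add, xi_smul, this]
          obtain ⟨g1, g2, g3, g4⟩ := hcR
          obtain ⟨f1, f2, f3, f4⟩ := hk1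
          have f1' : xi (j+1) (p 0) ≤ a (j+1) := f1
          have f2' : xi (j+2) (p 0) ≤ a (j+2) := f2
          have f4' : xi (j+2+2) (p 0) ≤ a (j+4) := f4
          rw [xi_two] at f4'
          have m1 := a_lt (show j < j+4 by omega)
          obtain ⟨t0, t1⟩ := ht
          refine ⟨?_, ?_, ?_, ?_⟩
          · rw [e]; nlinarith
          · rw [e]; nlinarith
          · rw [e]; nlinarith
          · rw [e]; nlinarith
        have hevt : ∀ᶠ t : ℝ in 𝓝[>] 0, t ∈ Ioo (0:ℝ) 1 := Ioo_mem_nhdsGT one_pos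
        have hevd : ∀ᶠ t : ℝ in 𝓝[>] 0, ‖(p 0 + t • (c - p 0)) - p 0‖ < ε := by
          have := htend.eventually (Metric.ball_mem_nhds (p 0) hε)
          filter_upwards [this] with t ht
          rwa [dist_eq_norm] at ht
        have hevp : ∀ᶠ t : ℝ in 𝓝[>] 0, psi j (p 0 + t • (c - p 0)) < psi j (p 0) + δ := by
          have := ((psi_cont j).tendsto (p 0)).comp htend
          exact this.eventually (gt_mem_nhds (by linarith))
        obtain ⟨t, ⟨ht1, ht2⟩, ht3⟩ := ((hevt.and hevd).and hevp).exists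
        refine ⟨p 0 + t • (c - p 0), ht2, ?_⟩
        intro w hw
        refine mem_iUnion.mpr ⟨j, hin t ht1, ?_⟩
        rw [tl_pt, pt_zero]
        linarith
    · refine gamma_conn_convex (piece_isOpen m j) (piece_convex m j) hcl hp
        (subset_iUnion (piece m) j) ?_
      have hδ : 0 < 2 * (b (j+3) - b (j+7)) := by
        have := b_strictAnti (show j + 3 < j + 7 by omega)
        linarith
      have hev4 : ∀ᶠ x : Fin (m+2) → ℂ in 𝓝 p,
          10 - 2 * (b (j+3) - b (j+7)) < ‖tl x‖ + psi j (x 0) := by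
        have hc : Continuous fun x : Fin (m+2) → ℂ => ‖tl x‖ + psi j (x 0) :=
          tl_cont.norm.add ((psi_cont j).comp cont_zero)
        exact (hc.tendsto p).eventually (lt_mem_nhds (by linarith))
      filter_upwards [hev1, hev2, hev3, hev4] with x hx1 hx2 hx3 hx4 hD
      obtain ⟨i, hi1, hi2⟩ := mem_iUnion.mp hD
      rcases combi hx1 hx2 hx3 hi1 with ⟨h1, h2⟩ | ⟨-, h2⟩
      · exact ⟨h1, by rw [← h2]; exact hi2⟩
      · exfalso
        linarith

lemma Dom_Gamma (m : ℕ) (p : Fin (m+2) → ℂ) (hp : p ∈ frontier (Dom m)) :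
    @IsConnected _ (projTopology (m+2)) (Gamma (Dom m) p) := by
  rw [(Dom_isOpen m).frontier_eq] at hp
  obtain ⟨hcl, hpD⟩ := hp
  by_cases hz : p 0 = 0
  · have hpe : p = pt 0 (tl p) := by
      conv_lhs => rw [← pt_tl p]
      rw [hz]
    rw [hpe] at hcl ⊢
    exact frontier_zero (tl p) hcl
  · by_cases hR : ∃ j, p 0 ∈ R j
    · obtain ⟨j, hj⟩ := hR
      exact frontier_cell hcl hpD hj
    · push Not at hR
      exact frontier_main hcl hpD hz hR

/-- For every `n ≥ 2` there is a bounded domain in `ℂⁿ` that is not `ℂ`-convex although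
the set of its local supporting hyperplanes at each boundary point is nonempty and connected. -/
theorem result (n : ℕ) (hn : 2 ≤ n) : ∃ D : Set (Fin n → ℂ),
    IsOpen D ∧ IsConnected D ∧ Bornology.IsBounded D ∧ ¬ CConvex D ∧
    ∀ z ∈ frontier D, @IsConnected _ (projTopology n) (Gamma D z) := by
  obtain ⟨m, rfl⟩ : ∃ m, n = m + 2 := ⟨n - 2, by omega⟩
  exact ⟨Dom m, Dom_isOpen m, Dom_isConnected m, Dom_isBounded m, Dom_not_CConvex m,
    Dom_Gamma m⟩

end

end Pool.Agent.Results.MP_e79ea5_an.SpiralCounterexample
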